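import Pool.Agent.Helper74.FN.Defs
import Pool.Agent.Helper53.FM.Rl.A3

/-! Project FN, piece A1 (start of the levels: a random set, windows of the right order). -/

set_option autoImplicit false

namespace Pool.Agent.Helper8.FN

open Finset hiding dens
open Pool.Agent.Helper53.WR
open Pool.Agent.Helper48.FB (win crossF Cs WinLe Fs dens)
open Pool.Agent.Helper53.FM (BCov blockMax)
open Pool.Agent.Helper81.FMR (filler_core_bal dens_nonneg two_pow_le_exp exp_neg_three)
open Pool.Agent.Helper74.FN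

/-- the threshold for windows -/
def thB (J y h : ℕ) : ℕ :=
  2 ^ (Nat.log 2 J / 2 + 5) * h / 2 ^ (Nat.log 2 y / 2) + 1 + 3 * J

lemma thB_ge (J y h : ℕ) :
    2 ^ (Nat.log 2 J / 2 + 5) * (h : ℝ) / 2 ^ (Nat.log 2 y / 2) + 3 * J ≤ thB J y h := by
  unfold thB
  push_cast
  have hD : 0 < 2 ^ (Nat.log 2 y / 2) := by positivity
  have h1 : 2 ^ (Nat.log 2 J / 2 + 5) * h < 2 ^ (Nat.log 2 y / 2) *
      (2 ^ (Nat.log 2 J / 2 + 5) * h / 2 ^ (Nat.log 2 y / 2) + 1) :=
    Nat.lt_mul_div_succ _ hD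
  have h2 : ((2 ^ (Nat.log 2 J / 2 + 5) * h : ℕ) : ℝ) < ((2 ^ (Nat.log 2 y / 2) *
      (2 ^ (Nat.log 2 J / 2 + 5) * h / 2 ^ (Nat.log 2 y / 2) + 1) : ℕ) : ℝ) := by
    exact_mod_cast h1
  have h3 : 2 ^ (Nat.log 2 J / 2 + 5) * (h : ℝ) / 2 ^ (Nat.log 2 y / 2) ≤
      ((2 ^ (Nat.log 2 J / 2 + 5) * h / 2 ^ (Nat.log 2 y / 2) : ℕ) : ℝ) + 1 := by
    rw [div_le_iff₀ (by positivity)]
    rw [Nat.cast_mul, Nat.cast_mul, Nat.cast_add, Nat.cast_pow, Nat.cast_pow, Nat.cast_one] at h2
    push_cast at h2 ⊢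
    linarith
  linarith

lemma sqrt_le_log {J : ℕ} (hJ : 0 < J) : √(J : ℝ) ≤ 2 ^ (Nat.log 2 J / 2 + 1) := by
  rw [Real.sqrt_le_left (by positivity), ← pow_mul]
  have h1 : J < 2 ^ (Nat.log 2 J + 1) := Nat.lt_pow_succ_log_self (by norm_num) _
  have h2 : 2 ^ (Nat.log 2 J + 1) ≤ 2 ^ ((Nat.log 2 J / 2 + 1) * 2) :=
    Nat.pow_le_pow_right (by norm_num) (by omega)
  exact_mod_cast (h1.le.trans h2)

lemma term_le {J : ℕ} (hJ : 100 ≤ J) (y h : ℕ) :
    Real.exp (Real.exp 1 * ∑ x ∈ (Ico y (y + h)).filter (fun x => 0 ≤ x ∧ x < 2 ^ J), dens J x) /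
      Real.exp 1 ^ thB J y h ≤ Real.exp (-(3 * J)) := by
  have h1 : ∑ x ∈ (Ico y (y + h)).filter (fun x => 0 ≤ x ∧ x < 2 ^ J), dens J x ≤
      4 * √J * h / 2 ^ (Nat.log 2 y / 2) :=
    (sum_le_sum_of_subset_of_nonneg (filter_subset _ _) fun x _ _ => dens_nonneg J x).trans
      (Pool.Agent.Helper85.FB.window_dens_le J y h)
  have he := Real.exp_one_lt_d9
  have he0 := Real.exp_pos 1
  have hs := sqrt_le_log (J := J) (by omega)
  have h3 : Real.exp 1 * (4 * √J * h / 2 ^ (Nat.log 2 y / 2)) ≤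
      2 ^ (Nat.log 2 J / 2 + 5) * (h : ℝ) / 2 ^ (Nat.log 2 y / 2) := by
    rw [← mul_div_assoc]
    refine div_le_div_of_nonneg_right ?_ (by positivity)
    have k0 : (2 : ℝ) ^ (Nat.log 2 J / 2 + 5) = 16 * 2 ^ (Nat.log 2 J / 2 + 1) := by
      rw [pow_add, pow_add]; norm_num; ring
    have k1 : Real.exp 1 * (4 * √J) ≤ 2 ^ (Nat.log 2 J / 2 + 5) := by
      rw [k0]
      have k2 : 0 ≤ √(J : ℝ) := Real.sqrt_nonneg _
      nlinarith
    calc Real.exp 1 * (4 * √J * h) = (Real.exp 1 * (4 * √J)) * h := by ring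
      _ ≤ 2 ^ (Nat.log 2 J / 2 + 5) * h := mul_le_mul_of_nonneg_right k1 (by positivity)
  have h4 := thB_ge J y h
  have h5 : Real.exp 1 ^ thB J y h = Real.exp (thB J y h) := by
    rw [← Real.exp_nat_mul, mul_one]
  rw [h5, ← Real.exp_sub]
  refine Real.exp_le_exp.2 ?_
  have h6 := mul_le_mul_of_nonneg_left h1 he0.le
  linarith

/-- FN-A1 (start of the levels: a random set, windows of the right order). -/
theorem ntop_base (J : ℕ) (hJ : 100 ≤ J) :
    ∃ T, NTop J (Cs * (J + 1)) (Nat.log 2 J / 2 + 20) 4 (fun _ => Cs * (J + 1))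
      (fun _ => Cs * (J + 1)) T (fun _ => T) (fun _ => ∅) := by
  have hJr : (100 : ℝ) ≤ J := by exact_mod_cast hJ
  obtain ⟨R, h1, h0, h2, h3, -, h5⟩ := filler_core_bal 0 J hJ
    (range (2 ^ J) ×ˢ Icc 1 (2 ^ J)) (fun w : ℕ × ℕ => Ico w.1 (w.1 + w.2))
    (fun _ => Real.exp 1) (fun w : ℕ × ℕ => thB J w.1 w.2)
    (fun _ _ => Real.one_le_exp (by norm_num))
    (by
      calc ∑ w ∈ range (2 ^ J) ×ˢ Icc 1 (2 ^ J),
            Real.exp (Real.exp 1 * ∑ x ∈ (Ico w.1 (w.1 + w.2)).filter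
              (fun x => 0 ≤ x ∧ x < 2 ^ J), dens J x) / Real.exp 1 ^ thB J w.1 w.2
          ≤ ∑ w ∈ range (2 ^ J) ×ˢ Icc 1 (2 ^ J), Real.exp (-(3 * J)) :=
            Finset.sum_le_sum fun w _ => term_le hJ w.1 w.2
        _ = ((2 : ℝ) ^ J * (2 : ℝ) ^ J) * Real.exp (-(3 * J)) := by
            rw [Finset.sum_const, Finset.card_product, Finset.card_range, Nat.card_Icc,
              nsmul_eq_mul, Nat.add_sub_cancel]
            push_cast
            ring
        _ ≤ (Real.exp J * Real.exp J) * Real.exp (-(3 * J)) := by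
            refine mul_le_mul_of_nonneg_right ?_ (Real.exp_pos _).le
            exact mul_le_mul (two_pow_le_exp J) (two_pow_le_exp J) (by positivity)
              (Real.exp_pos _).le
        _ = Real.exp (J + J + -(3 * J)) := by rw [Real.exp_add, Real.exp_add]
        _ ≤ Real.exp (-3) := Real.exp_le_exp.2 (by linarith)
        _ ≤ 1 / 8 := exp_neg_three
        _ < 1 / 2 := by norm_num)
  have hF : ∀ n, repF R n ≤ Cs * (J + 1) := by
    intro n
    refine (h3 n).trans ?_
    unfold Cs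
    omega
  have hpow : 2 ^ 1 ≤ 2 ^ J := Nat.pow_le_pow_right (by norm_num) (by omega)
  have hcov : ∀ n, 2 ≤ n → n < 2 ^ J →
      ∃ x ∈ R, ∃ y ∈ R, x + y = n ∧ n ≤ 4 * x ∧ n ≤ 4 * y := fun n hn2 hn => h2 n hn2 (by omega) hn
  refine ⟨R, ?_⟩
  exact
    { sub := fun _ => Subset.rfl
      lt := fun x hx => (h1 x hx).2
      zo := ⟨h0 0 le_rfl (by omega) (by omega), h0 1 (by omega) (by omega) (by omega)⟩
      cov := hcov
      rep := hF
      rep' := fun _ n => hF n
      wn := by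
        intro y h _ hhy
        rcases Nat.lt_or_ge y (2 ^ J) with hy | hy
        · rcases Nat.eq_zero_or_pos h with rfl | hh
          · have h0 : win R y 0 = ∅ := by
              unfold win
              rw [Finset.filter_eq_empty_iff]
              intro x _
              omega
            rw [h0, Finset.card_empty, Nat.zero_mul]
            exact Nat.zero_le _
          · have k1 := h5 (y, h) (by
              rw [Finset.mem_product]
              exact ⟨Finset.mem_range.2 hy, Finset.mem_Icc.2 ⟨hh, hhy.trans hy.le⟩⟩)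
            simp only at k1
            have k2 : win R y h = R ∩ Ico y (y + h) := by
              ext x
              simp only [win, Finset.mem_filter, Finset.mem_inter, Finset.mem_Ico]
            rw [k2]
            have k3 : (R ∩ Ico y (y + h)).card ≤
                2 ^ (Nat.log 2 J / 2 + 5) * h / 2 ^ (Nat.log 2 y / 2) + 3 * J := by
              unfold thB at k1
              omega
            have k4 : 3 * J ≤ Cs * (J + 1) := by
              unfold Cs
              omega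
            have k5 : 2 ^ (Nat.log 2 J / 2 + 5) ≤ 2 ^ (Nat.log 2 J / 2 + 20) :=
              Nat.pow_le_pow_right (by norm_num) (by omega)
            calc (R ∩ Ico y (y + h)).card * 2 ^ (Nat.log 2 y / 2)
                ≤ (2 ^ (Nat.log 2 J / 2 + 5) * h / 2 ^ (Nat.log 2 y / 2) + 3 * J) *
                    2 ^ (Nat.log 2 y / 2) := Nat.mul_le_mul_right _ k3
              _ = 2 ^ (Nat.log 2 J / 2 + 5) * h / 2 ^ (Nat.log 2 y / 2) * 2 ^ (Nat.log 2 y / 2)
                  + 3 * J * 2 ^ (Nat.log 2 y / 2) := by rw [add_mul]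
              _ ≤ 2 ^ (Nat.log 2 J / 2 + 5) * h + 3 * J * 2 ^ (Nat.log 2 y / 2) :=
                  Nat.add_le_add_right (Nat.div_mul_le_self _ _) _
              _ ≤ 2 ^ (Nat.log 2 J / 2 + 20) * h + Cs * (J + 1) * 2 ^ (Nat.log 2 y / 2) :=
                  Nat.add_le_add (Nat.mul_le_mul_right _ k5) (Nat.mul_le_mul_right _ k4)
        · have h0 : win R y h = ∅ := by
            unfold win
            rw [Finset.filter_eq_empty_iff]
            intro x hx
            have := (h1 x hx).2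
            omega
          rw [h0, Finset.card_empty, Nat.zero_mul]
          exact Nat.zero_le _
      prof := fun _ n _ _ => hF n
      good := by
        intro _ j hj1 hj _ n hn1 hn2
        have hn : 2 ≤ n := by
          calc 2 = 2 ^ 1 := rfl
            _ ≤ 2 ^ j := Nat.pow_le_pow_right (by norm_num) hj1
            _ ≤ n := hn1
        obtain ⟨x, hx, y, hy, hxy⟩ := hcov n hn
          (hn2.trans_le (Nat.pow_le_pow_right (by norm_num) hj))
        exact ⟨x, mem_coe.2 hx, y, mem_coe.2 hy, hxy⟩ }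

end Pool.Agent.Helper8.FN
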